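import Pool.Agent.H34.LF.LAMP
import Pool.Agent.H28.LFP.CPMain

/-!
# [LAM] the finitary theorem for the Liouville function
-/

set_option autoImplicit false

open Finset Filter Topology

namespace Pool.Agent.H1.LF

open Pool.Agent.H91.LF Pool.Agent.H34.LF

theorem exists_primes (C : ℝ) : ∃ P : ℕ, C < ∑ p ∈ primesLE P, (1 / (p : ℝ)) := by
  by_contra hcon
  push Not at hcon
  refine not_summable_one_div_on_primes (summable_of_sum_range_le (c := C) ?_ ?_)
  · intro n
    exact Set.indicator_nonneg (fun _ _ => by positivity) n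
  · intro n
    refine le_trans ?_ (hcon n)
    rw [Finset.sum_indicator_eq_sum_filter]
    refine Finset.sum_le_sum_of_subset_of_nonneg ?_ fun _ _ _ => by positivity
    intro p hp
    simp only [Finset.mem_filter, Finset.mem_range, Set.mem_ofPred_eq] at hp
    simp only [primesLE, Finset.mem_filter, Finset.mem_Icc]
    exact ⟨⟨hp.2.one_lt.le, hp.1.le⟩, hp.2⟩

theorem lam_of_lamp (h : LampClean) : StatementLAM := by
  classical
  intro m k a b j W n₀ τ hW hInd ρ hρ
  obtain ⟨C, hC⟩ := h m k a b (fun _ => 0) j W n₀ τ hW hInd ρ hρ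
  obtain ⟨P, hP⟩ := exists_primes C
  obtain ⟨T₀, hT₀⟩ := hC P
  refine ⟨T₀, fun T hT => ?_⟩
  obtain ⟨K, hK⟩ := hT₀ T hT
  refine ⟨K, fun x y hx hy => ?_⟩
  have h1 := hK x y hx hy
  simp only [zero_mul, add_zero] at h1
  by_contra hcon
  push Not at hcon
  simp only [sum_bindcast_filter] at hcon
  rw [Finset.filter_true_of_mem (fun p _ => hcon)] at h1
  linarith

theorem lam_main (h1 : StatementCORE) (h2 : StatementUM) : StatementLAM :=
  lam_of_lamp (lamp_clean h2 (Pool.Agent.H28.LFP.cp_main h1))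

end Pool.Agent.H1.LF
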