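import Pool.Agent.H28.LF.F2

/-!
# lfu UN2: uniformity in the length of the windows
-/

set_option autoImplicit false

open Finset Filter

namespace Pool.Agent.H1.LF

open Pool.Agent.H28.LF

theorem sum_inv_le' {x y : ℕ} (hx : 0 < x) (hxy : x ≤ y) :
    ∑ n ∈ Icc x y, (1 : ℝ) / n ≤ 1 + Real.log ((y : ℝ) / x) := by
  have hx' : (0 : ℝ) < x := by exact_mod_cast hx
  induction y, hxy using Nat.le_induction with
  | base =>
    rw [Icc_self, sum_singleton, div_self hx'.ne', Real.log_one, add_zero]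
    rw [div_le_one hx']
    exact_mod_cast hx
  | succ y hy ih =>
    rw [Finset.sum_Icc_succ_top (by omega)]
    have hy' : (0 : ℝ) < y := by exact_mod_cast lt_of_lt_of_le hx hy
    have h1 : Real.log ((y : ℝ) / (y + 1)) ≤ (y : ℝ) / (y + 1) - 1 :=
      Real.log_le_sub_one_of_pos (by positivity)
    have h2 : (y : ℝ) / (y + 1) - 1 = -(1 / ((y : ℝ) + 1)) := by
      field_simp
      ring
    have h3 : Real.log ((y : ℝ) / (y + 1)) = Real.log ((y : ℝ) / x) -
        Real.log (((y : ℝ) + 1) / x) := by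
      rw [Real.log_div hy'.ne' (by positivity), Real.log_div hy'.ne' hx'.ne',
        Real.log_div (by positivity) hx'.ne']
      ring
    have h4 : ((y + 1 : ℕ) : ℝ) = (y : ℝ) + 1 := by push_cast; ring
    rw [h4]
    linarith

theorem pf_UN2 (hB : T_BLI) (hS : T_SBX) : T_UN2 := by
  intro u hu hU ε hε
  have hu1 := hu.1
  obtain ⟨K1', hK1'⟩ := hU (ε / 8) (by positivity)
  obtain ⟨K1, hK1e, hK1pos⟩ : ∃ K1 : ℕ, K1' ≤ K1 ∧ 0 < K1 := ⟨K1' + 1, by omega, by omega⟩
  obtain ⟨C1, hC1⟩ := hK1' K1 hK1e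
  obtain ⟨N0, hN0⟩ := exists_nat_gt (16 * K1 / ε)
  refine ⟨N0 + C1 + 3, by omega, ?_⟩
  intro K x y hK hKx hxy
  have hx : 0 < x := by omega
  have hy3 : 3 * x ≤ y := le_trans (Nat.mul_le_mul_right x (by omega)) hxy
  have hyC : C1 * x ≤ y := le_trans (Nat.mul_le_mul_right x (by omega)) hxy
  have hx' : (0 : ℝ) < x := by exact_mod_cast hx
  have hK' : (0 : ℝ) < K := by exact_mod_cast (show 0 < K by omega)
  have hK1' : (0 : ℝ) < K1 := by exact_mod_cast hK1pos
  have hy3' : (3 : ℝ) ≤ (y : ℝ) / x := by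
    rw [le_div_iff₀ hx']
    exact_mod_cast hy3
  have hL1 : 1 ≤ Real.log ((y : ℝ) / x) := by
    rw [Real.le_log_iff_exp_le (by linarith)]
    exact (Real.exp_one_lt_d9.le.trans (by norm_num)).trans hy3'
  have hNK : 16 * (K1 : ℝ) / ε < K := by
    refine hN0.trans_le ?_
    exact_mod_cast (show N0 ≤ K by omega)
  -- the supremum
  have hpt : ∀ n, (K : ℝ) * SB u K n ≤ ∑ h ∈ range K, SB u K1 (n + h) + 2 * K1 := by
    intro n
    have h1 : SB u K n ≤ (∑ h ∈ range K, SB u K1 (n + h) + 2 * K1) / K := by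
      refine ciSup_le fun θ => ?_
      rw [le_div_iff₀ hK', mul_comm]
      refine (hB u hu1 K1 K θ n hK1pos).trans ?_
      gcongr with h hh
      exact (hS u hu1 K1 (n + h)).1 θ
    rw [le_div_iff₀ hK', mul_comm] at h1
    exact h1
  -- the short means
  set f : ℕ → ℝ := fun m => SB u K1 m / m with hf
  have hf0 : ∀ m, 0 ≤ f m := fun m => div_nonneg (hS u hu1 K1 m).2.1 (Nat.cast_nonneg m)
  have h2 : ∀ h ∈ range K, ∑ n ∈ Icc x y, SB u K1 (n + h) / n ≤
      3 * ∑ m ∈ Icc x (y + 2 * x), f m := by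
    intro h hh
    have hh' : h < K := mem_range.1 hh
    calc ∑ n ∈ Icc x y, SB u K1 (n + h) / n ≤ ∑ n ∈ Icc x y, 3 * f (n + h) := by
          refine sum_le_sum fun n hn => ?_
          have hn1 : x ≤ n := (mem_Icc.1 hn).1
          have hn0 : (0 : ℝ) < n := by exact_mod_cast (show 0 < n by omega)
          have hn2 : (0 : ℝ) < (n + h : ℕ) := by exact_mod_cast (show 0 < n + h by omega)
          have hn3 : ((n + h : ℕ) : ℝ) ≤ 3 * n := by
            exact_mod_cast (show n + h ≤ 3 * n by omega)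
          have hs := (hS u hu1 K1 (n + h)).2.1
          have e : 3 * f (n + h) = SB u K1 (n + h) * 3 / (n + h : ℕ) := by
            simp only [hf]; ring
          rw [e, div_le_div_iff₀ hn0 hn2]
          nlinarith [mul_le_mul_of_nonneg_left hn3 hs]
      _ = 3 * ∑ n ∈ Icc x y, f (n + h) := by rw [mul_sum]
      _ = 3 * ∑ m ∈ Icc (x + h) (y + h), f m := by
          rw [← Finset.map_add_right_Icc x y h, sum_map]
          rfl
      _ ≤ 3 * ∑ m ∈ Icc x (y + 2 * x), f m := by
          refine mul_le_mul_of_nonneg_left ?_ (by norm_num)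
          exact sum_le_sum_of_subset_of_nonneg (Icc_subset_Icc (by omega) (by omega))
            fun m _ _ => hf0 m
  have h3 : ∑ m ∈ Icc x (y + 2 * x), f m ≤ ε / 8 * (2 * Real.log ((y : ℝ) / x)) := by
    refine (hC1 x (y + 2 * x) hx (by omega)).trans ?_
    refine mul_le_mul_of_nonneg_left ?_ (by positivity)
    have h4 : (((y + 2 * x : ℕ) : ℝ) / x) ≤ ((y : ℝ) / x) ^ 2 := by
      have e : (((y + 2 * x : ℕ) : ℝ) / x) = (y : ℝ) / x + 2 := by
        push_cast
        field_simp
      rw [e]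
      nlinarith
    have h5 : Real.log (((y + 2 * x : ℕ) : ℝ) / x) ≤ Real.log (((y : ℝ) / x) ^ 2) := by
      refine Real.log_le_log ?_ h4
      have : (0 : ℝ) < (y + 2 * x : ℕ) := by exact_mod_cast (show 0 < y + 2 * x by omega)
      positivity
    rw [Real.log_pow] at h5
    exact_mod_cast h5
  have h6 := sum_inv_le' hx (show x ≤ y by omega)
  calc ∑ n ∈ Icc x y, SB u K n / n
      ≤ ∑ n ∈ Icc x y, ((1 / (K : ℝ)) * ∑ h ∈ range K, SB u K1 (n + h) / n +
          2 * K1 / K * (1 / n)) := by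
        refine sum_le_sum fun n hn => ?_
        have hn0 : (0 : ℝ) < n := by
          exact_mod_cast (show 0 < n by have := (mem_Icc.1 hn).1; omega)
        have h7 : SB u K n ≤ (∑ h ∈ range K, SB u K1 (n + h) + 2 * K1) / K := by
          rw [le_div_iff₀ hK', mul_comm]
          exact hpt n
        refine (div_le_div_of_nonneg_right h7 hn0.le).trans (le_of_eq ?_)
        rw [← sum_div]
        field_simp
    _ = (1 / (K : ℝ)) * ∑ h ∈ range K, ∑ n ∈ Icc x y, SB u K1 (n + h) / n +
          2 * K1 / K * ∑ n ∈ Icc x y, (1 : ℝ) / n := by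
        rw [sum_add_distrib, ← mul_sum, ← mul_sum, sum_comm]
    _ ≤ (1 / (K : ℝ)) * ∑ _h ∈ range K, 3 * (ε / 8 * (2 * Real.log ((y : ℝ) / x))) +
          2 * K1 / K * (1 + Real.log ((y : ℝ) / x)) := by
        refine add_le_add (mul_le_mul_of_nonneg_left (sum_le_sum fun h hh => ?_) (by positivity))
          (mul_le_mul_of_nonneg_left h6 (by positivity))
        refine (h2 h hh).trans (mul_le_mul_of_nonneg_left h3 (by norm_num))
    _ = 3 / 4 * ε * Real.log ((y : ℝ) / x) + 2 * K1 / K * (1 + Real.log ((y : ℝ) / x)) := by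
        rw [sum_const, card_range, nsmul_eq_mul]
        field_simp
        ring
    _ ≤ ε * Real.log ((y : ℝ) / x) := by
        have h8 : 2 * (K1 : ℝ) / K ≤ ε / 8 := by
          rw [div_le_iff₀ hK']
          rw [div_lt_iff₀ hε] at hNK
          linarith
        have h9 : 2 * (K1 : ℝ) / K * (1 + Real.log ((y : ℝ) / x)) ≤
            ε / 8 * (2 * Real.log ((y : ℝ) / x)) :=
          mul_le_mul h8 (by linarith) (by linarith) (by positivity)
        linarith

end Pool.Agent.H1.LF
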