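import Pool.Agent.H28.LF.F1

/-!
Project LF, row YLW: the law of the points of the `n`-side.
-/

set_option autoImplicit false

open MeasureTheory ProbabilityTheory Filter Topology Finset
open scoped Nat ENNReal

namespace Pool.Agent.H1.LF

open Pool.Agent.H28.LF
open Pool.Agent.H28.MCL (ldB Aw)

theorem ext_clopen (μ ν : Measure Xi) [IsFiniteMeasure μ] [IsFiniteMeasure ν]
    (h : ∀ C : Set Xi, IsClopen C → μ.real C = ν.real C) : μ = ν := by
  have hb : TopologicalSpace.IsTopologicalBasis {s : Set Xi | IsClopen s} :=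
    isTopologicalBasis_isClopen
  have hg : (inferInstance : MeasurableSpace Xi) =
      MeasurableSpace.generateFrom {s : Set Xi | IsClopen s} := by
    rw [← hb.borel_eq_generateFrom]
    exact BorelSpace.measurable_eq
  have hreal : ∀ C : Set Xi, IsClopen C → μ C = ν C := by
    intro C hC
    have := h C hC
    rw [measureReal_def, measureReal_def,
      ENNReal.toReal_eq_toReal_iff' (measure_ne_top μ C) (measure_ne_top ν C)] at this
    exact this
  refine ext_of_generate_finite {s : Set Xi | IsClopen s} hg ?_ (fun s hs => hreal s hs)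
    (hreal _ isClopen_univ)
  intro s hs t ht _
  exact IsClopen.inter hs ht

theorem continuous_xiY (p : ℕ) : Continuous (xiY p) := by
  have h1 : Continuous (fun ω : Yi => ω 0) := continuous_apply 0
  have h2 : Continuous (fun c : LY => c.2.2 p) :=
    (continuous_apply p).comp (continuous_snd.comp continuous_snd)
  exact h2.comp h1

theorem isClopen_flY (p : ℕ) : IsClopen (flY p) := by
  have h1 : Continuous (fun ω : Yi => (ω 0).2.1 p) := by
    have h0 : Continuous (fun ω : Yi => ω 0) := continuous_apply 0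
    have h2 : Continuous (fun c : LY => c.2.1 p) :=
      (continuous_apply p).comp (continuous_fst.comp continuous_snd)
    exact h2.comp h0
  exact (isClopen_discrete ({true} : Set Bool)).preimage h1

theorem xiY_pt (τ : ℕ → ℕ → Bool) (p n : ℕ) :
    xiY p (ptS (lY τ) n) = ptS (lX τ) (n / p) := by
  show (lY τ ((n : ℤ) + 0).toNat).2.2 p = _
  rw [add_zero, Int.toNat_natCast]
  rfl

theorem flY_pt (τ : ℕ → ℕ → Bool) (p n : ℕ) : ptS (lY τ) n ∈ flY p ↔ p ∣ n := by
  show (lY τ ((n : ℤ) + 0).toNat).2.1 p = true ↔ _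
  rw [add_zero, Int.toNat_natCast]
  show decide (p ∣ n) = true ↔ _
  simp

theorem pf_YLW (hL : Pool.Agent.H28.MCL.T_LDB) : T_YLW := by
  intro U x y τ PX P hA hPX hC hLw p hp
  obtain ⟨_, h2, h3, _, _⟩ := hL U x y hA
  haveI := hLw.prob
  have hcont := continuous_xiY p
  have hmeas : Measurable (xiY p) := hcont.measurable
  have e1 : ∀ C : Set Xi, IsClopen C → P.real (xiY p ⁻¹' C) = PX.real C := by
    intro C hCl
    rw [hLw.clo _ (hCl.preimage hcont), hC C hCl, ← h3 {n | ptS (lX τ) n ∈ C} p hp.pos]
    congr 1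
  have e2 : ∀ C : Set Xi, IsClopen C → P.real (flY p ∩ xiY p ⁻¹' C) = PX.real C / p := by
    intro C hCl
    rw [hLw.clo _ ((isClopen_flY p).inter (hCl.preimage hcont)), hC C hCl,
      ← h2 {n | ptS (lX τ) n ∈ C} p hp.pos]
    congr 1
    ext n
    exact and_congr (flY_pt τ p n) (by
      show xiY p (ptS (lY τ) n) ∈ C ↔ _
      rw [xiY_pt]; exact Iff.rfl)
  refine ⟨⟨hmeas, ?_⟩, ?_⟩
  · haveI : IsProbabilityMeasure (P.map (xiY p)) := Measure.isProbabilityMeasure_map hmeas.aemeasurable
    refine ext_clopen _ _ fun C hCl => ?_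
    rw [← e1 C hCl, measureReal_def, measureReal_def, Measure.map_apply hmeas (IsClopen.isClosed hCl).measurableSet]
  · intro C hCm
    have hne : (p : ℝ≥0∞) ≠ 0 := by
      simpa using hp.ne_zero
    haveI : IsFiniteMeasure ((p : ℝ≥0∞)⁻¹ • PX) := by
      refine ⟨?_⟩
      rw [Measure.smul_apply, smul_eq_mul]
      exact ENNReal.mul_lt_top (ENNReal.inv_lt_top.2 (pos_iff_ne_zero.2 hne)) (measure_lt_top _ _)
    have hms : (P.restrict (flY p)).map (xiY p) = (p : ℝ≥0∞)⁻¹ • PX := by
      refine ext_clopen _ _ fun C hCl => ?_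
      rw [measureReal_def, measureReal_def, Measure.map_apply hmeas (IsClopen.isClosed hCl).measurableSet,
        Measure.restrict_apply (hmeas (IsClopen.isClosed hCl).measurableSet), Set.inter_comm, ← measureReal_def,
        e2 C hCl, Measure.smul_apply, smul_eq_mul, ENNReal.toReal_mul, ENNReal.toReal_inv,
        ENNReal.toReal_natCast, ← measureReal_def]
      ring
    have := congrArg (fun m : Measure Xi => (m C).toReal) hms
    change ((P.restrict (flY p)).map (xiY p) C).toReal = (((p : ℝ≥0∞)⁻¹ • PX) C).toReal at this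
    rw [Measure.map_apply hmeas hCm, Measure.restrict_apply (hmeas hCm), Set.inter_comm,
      Measure.smul_apply, smul_eq_mul, ENNReal.toReal_mul, ENNReal.toReal_inv,
      ENNReal.toReal_natCast] at this
    rw [measureReal_def, this, measureReal_def]
    ring

end Pool.Agent.H1.LF
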